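import Mathlib
import Pool.Agent.H987S.Main
import Pool.Agent.H987S.Exist

/-!
# MP_baa3fb_lc: the continuous theory of the hyperfinite II_1 factor is not simple

Structures, formulas, elementary equivalence and the hyperfinite II_1 factor are defined in
`Pool.Agent.H504R3.SDefs`; types, indiscernible sequences, dividing and simplicity are defined in
`Pool.Agent.H987S.Defs`.

Idea.  Let `M` be the ultrapower of `R` along a nonprincipal ultrafilter on the natural numbers.  For
`o` in `{*, 0, 1, 2, …}` and a binary sequence `i` let `a (o, i)` be the class in `M` of the sequence
whose entry with number `n` is the Pauli matrix `Z` of the tensor factor of `R` with number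
`code (o, i|n)`.  By the theorem of Łoś and the invariance of formulas under finite permutations of
the tensor factors (they are implemented by unitaries), the family `a` is an indiscernible set.
At stage `n` there are only finitely many sequences `i|n`, so one unitary of `R` moves the factor with
number `code (*, i|n)` to the factor with number `code (0, i|n)` for all `i`.  So one unitary `x` of
`M` satisfies `x a(*, i) x* = a(0, i)` for all `i`.  Let `B` be the set of all `a(*, i)` and `a(0, i)`
and let `p` be the type of `x` over `B`.  The elements of `B` have pairwise distance `√2`, so a
separable subset `A` of `B` is countable and for some `i` the element `a(0, i)` is not in `A`.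
Replacing `a(0, i)` by `a(0, i), a(1, i), a(2, i), …` gives a sequence of copies of `B` which is
indiscernible over `A` and along which `p` is inconsistent, as `x a(*, i) x*` cannot be close both to
`a(0, i)` and to `a(1, i)`.
-/

set_option autoImplicit false

namespace Pool.Agent.Results.MP_baa3fb_lc.TheoryOfRNotSimple

open Pool.Agent.H504R3.S (Str)
open Pool.Agent.H987S

/-- The hyperfinite II_1 factor `R` exists, and its continuous theory is not simple. -/
theorem result : (∃ R : Str, R.IsHyperfinite) ∧ ∀ R : Str, R.IsHyperfinite → ¬ IsSimpleTheory R :=
  ⟨exists_R, not_simple⟩

end Pool.Agent.Results.MP_baa3fb_lc.TheoryOfRNotSimple
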